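import Pool.Agent.H71.Patch.Defs

/-!
# QT.Dist : elements with two distinct eigenvalues in an irreducible two dimensional group

`disc M = (tr M) ^ 2 - 4 det M`. If the characteristic of `E` is not two and `ρ : G → GL_2(E)` is
irreducible then `disc (ρ g) ≠ 0` for some `g` (`exists_disc`); `disc (M ^ j)` is a square times
`disc M` (`disc_pow`).
-/

set_option autoImplicit false

open Matrix

namespace Pool.Agent.H23.QT

variable {E : Type*} [Field E]

/-- the discriminant of the characteristic polynomial -/
def disc (M : Matrix (Fin 2) (Fin 2) E) : E := M.trace ^ 2 - 4 * M.det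

theorem disc_lin (M : Matrix (Fin 2) (Fin 2) E) (x y : E) :
    disc (x • M + y • (1 : Matrix (Fin 2) (Fin 2) E)) = x ^ 2 * disc M := by
  simp only [disc, Matrix.trace_fin_two, Matrix.det_fin_two, Matrix.add_apply, Matrix.smul_apply,
    Matrix.one_apply_eq, smul_eq_mul, mul_one, ne_eq, Fin.isValue, one_ne_zero, not_false_eq_true,
    zero_ne_one, Matrix.one_apply_ne, mul_zero, add_zero]
  ring

theorem pow_lin (M : Matrix (Fin 2) (Fin 2) E) (j : ℕ) :
    ∃ x y : E, M ^ j = x • M + y • (1 : Matrix (Fin 2) (Fin 2) E) := by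
  induction j with
  | zero => exact ⟨0, 1, by simp⟩
  | succ j ih =>
    obtain ⟨x, y, h⟩ := ih
    refine ⟨x * M.trace + y, -(x * M.det), ?_⟩
    rw [pow_succ, h]
    ext a b
    fin_cases a <;> fin_cases b <;>
      simp [Matrix.mul_apply, Fin.sum_univ_two, Matrix.trace_fin_two, Matrix.det_fin_two,
        Matrix.add_apply, Matrix.smul_apply] <;> ring

/-- `disc (M ^ j)` vanishes if `disc M` does -/
theorem disc_pow (M : Matrix (Fin 2) (Fin 2) E) (j : ℕ) (h : disc (M ^ j) ≠ 0) : disc M ≠ 0 := by
  obtain ⟨x, y, e⟩ := pow_lin M j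
  rw [e, disc_lin] at h
  exact fun h0 => h (by rw [h0, mul_zero])

/-- an irreducible group has an element with two distinct eigenvalues -/
theorem exists_disc {G : Type*} [Group G] (h2 : (2 : E) ≠ 0) (ρ : G →* GL (Fin 2) E)
    (hirr : Pool.Agent.H71.Patch.Irred ρ) : ∃ g, disc (ρ g).val ≠ 0 := by
  by_contra hcon
  push Not at hcon
  -- a nonscalar element
  have hns : ∃ g, ∀ x : E, (ρ g).val ≠ x • (1 : Matrix (Fin 2) (Fin 2) E) := by
    by_contra hs
    push Not at hs
    have h1 := hirr.2 (Submodule.span E {![1, 0]}) (by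
      intro g x hx
      obtain ⟨c, rfl⟩ := Submodule.mem_span_singleton.1 hx
      obtain ⟨y, hy⟩ := hs g
      refine Submodule.mem_span_singleton.2 ⟨y * c, ?_⟩
      rw [hy, Matrix.smul_mulVec, Matrix.one_mulVec, smul_smul])
    rcases h1 with h1 | h1
    · have h3 : (![1, 0] : Fin 2 → E) ∈ (⊥ : Submodule E (Fin 2 → E)) := by
        rw [← h1]; exact Submodule.mem_span_singleton_self _
      have h4 := congrFun ((Submodule.mem_bot E).1 h3) 0
      simp at h4
    · have h3 : (![0, 1] : Fin 2 → E) ∈ (Submodule.span E {![1, 0]} : Submodule E (Fin 2 → E)) := by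
        rw [h1]; trivial
      obtain ⟨c, hc⟩ := Submodule.mem_span_singleton.1 h3
      have h4 := congrFun hc 1
      simp at h4
  obtain ⟨g, hg⟩ := hns
  set M := (ρ g).val with hM
  set l : E := M.trace / 2 with hl
  set N : Matrix (Fin 2) (Fin 2) E := M - l • (1 : Matrix (Fin 2) (Fin 2) E) with hN
  have hMN : M = N + l • (1 : Matrix (Fin 2) (Fin 2) E) := by rw [hN]; abel
  have htr : N.trace = 0 := by
    rw [hN, Matrix.trace_sub, Matrix.trace_smul, Matrix.trace_one, hl]
    simp only [Fintype.card_fin, Nat.cast_ofNat, smul_eq_mul]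
    field_simp
    ring
  have hdet : N.det = 0 := by
    have h1 := hcon g
    rw [← hM, hMN] at h1
    have h3 : disc (N + l • (1 : Matrix (Fin 2) (Fin 2) E)) = disc N := by
      have := disc_lin N 1 l
      rw [one_smul, one_pow, one_mul] at this
      exact this
    rw [h3, disc, htr] at h1
    have h4 : (4 : E) * N.det = 0 := by linear_combination -h1
    have h5 : (4 : E) ≠ 0 := by
      have : (4 : E) = 2 * 2 := by norm_num
      rw [this]; exact mul_ne_zero h2 h2
    exact (mul_eq_zero.1 h4).resolve_left h5
  have hN0 : N ≠ 0 := by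
    intro h0
    refine hg l ?_
    rw [hMN, h0, zero_add]
  have hl0 : l ≠ 0 := by
    intro h0
    have h1 : M.det = 0 := by rw [hMN, h0, zero_smul, add_zero]; exact hdet
    have h3 : IsUnit M.det := (Matrix.isUnit_iff_isUnit_det _).1 (ρ g).isUnit
    rw [h1] at h3
    exact not_isUnit_zero h3
  have hsq : N * N = 0 := by
    ext a b
    rw [Matrix.trace_fin_two] at htr
    rw [Matrix.det_fin_two] at hdet
    have e : N 1 1 = - N 0 0 := by linear_combination htr
    rw [e] at hdet
    fin_cases a <;> fin_cases b <;> simp [Matrix.mul_apply, Fin.sum_univ_two, e]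
    · linear_combination -hdet
    · ring
    · ring
    · linear_combination -hdet
  -- the trace of `N h` vanishes for all `h`
  have key : ∀ h : G, (N * (ρ h).val).trace = 0 := by
    intro h
    set H := (ρ h).val with hH
    set c := (N * H).trace with hc
    -- q (g h) = 0
    have hq0 := hcon h
    have hq1 := hcon (g * h)
    have hq2 := hcon (g * g * h)
    rw [map_mul, Units.val_mul, ← hM, ← hH] at hq1
    rw [map_mul, map_mul, Units.val_mul, Units.val_mul, ← hM, ← hH] at hq2
    rw [disc, Matrix.det_mul] at hq1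
    rw [disc, Matrix.det_mul, Matrix.det_mul] at hq2
    rw [disc, ← hH] at hq0
    have hdM : M.det = l ^ 2 := by
      have h1 := hcon g
      rw [← hM, disc] at h1
      have h3 : M.trace = 2 * l := by rw [hl]; field_simp
      rw [h3] at h1
      have h5 : (4 : E) ≠ 0 := by
        have : (4 : E) = 2 * 2 := by norm_num
        rw [this]; exact mul_ne_zero h2 h2
      have h6 : (4 : E) * (M.det - l ^ 2) = 0 := by linear_combination -h1
      exact sub_eq_zero.1 ((mul_eq_zero.1 h6).resolve_left h5)
    have ht1 : (M * H).trace = c + l * H.trace := by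
      rw [hMN, Matrix.add_mul, Matrix.trace_add, Matrix.smul_mul, Matrix.one_mul,
        Matrix.trace_smul, smul_eq_mul]
    have ht2 : (M * M * H).trace = 2 * l * c + l ^ 2 * H.trace := by
      have e : M * M = (2 * l) • N + (l ^ 2) • (1 : Matrix (Fin 2) (Fin 2) E) := by
        rw [hMN, Matrix.add_mul, Matrix.mul_add, hsq, Matrix.mul_smul, Matrix.mul_one,
          Matrix.smul_mul, Matrix.one_mul, smul_add, smul_smul]
        rw [show (2 * l) = l + l by ring, add_smul, pow_two]
        abel
      rw [e, Matrix.add_mul, Matrix.trace_add, Matrix.smul_mul, Matrix.smul_mul, Matrix.one_mul,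
        Matrix.trace_smul, Matrix.trace_smul, smul_eq_mul, smul_eq_mul]
    rw [ht1, hdM] at hq1
    rw [ht2, hdM] at hq2
    set t := H.trace with htt
    set d := H.det with hdd
    -- hq0 : t ^ 2 - 4 * d = 0
    -- hq1 : (c + l t) ^ 2 - 4 (l ^ 2 d) = 0
    have e1 : c * (c + 2 * l * t) = 0 := by linear_combination hq1 - l ^ 2 * hq0
    have e2 : 4 * (l * c * (l * c + l ^ 2 * t)) = 0 := by
      linear_combination hq2 - l ^ 4 * hq0
    by_contra hc0
    have f1 : c + 2 * l * t = 0 := (mul_eq_zero.1 e1).resolve_left hc0
    have h5 : (4 : E) ≠ 0 := by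
      have : (4 : E) = 2 * 2 := by norm_num
      rw [this]; exact mul_ne_zero h2 h2
    have f2 : l * c + l ^ 2 * t = 0 := by
      have := (mul_eq_zero.1 e2).resolve_left h5
      exact (mul_eq_zero.1 this).resolve_left (mul_ne_zero hl0 hc0)
    have f3 : c + l * t = 0 := by
      have : l * (c + l * t) = 0 := by linear_combination f2
      exact (mul_eq_zero.1 this).resolve_left hl0
    exact hc0 (by linear_combination 2 * f3 - f1)
  -- the kernel of `N` is invariant
  let W : Submodule E (Fin 2 → E) := LinearMap.ker (Matrix.mulVecLin N)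
  have hW : ∀ x, x ∈ W ↔ N *ᵥ x = 0 := fun x => by
    simp [W, LinearMap.mem_ker]
  have hinv : ∀ h : G, ∀ x ∈ W, (ρ h).val *ᵥ x ∈ W := by
    intro h x hx
    rw [hW] at hx ⊢
    -- N H N = tr (N H) N = 0
    have hNHN : N * (ρ h).val * N = 0 := by
      have h1 := key h
      set H := (ρ h).val
      rw [Matrix.trace_fin_two] at h1 htr
      rw [Matrix.det_fin_two] at hdet
      simp only [Matrix.mul_apply, Fin.sum_univ_two] at h1
      have e : N 1 1 = - N 0 0 := by linear_combination htr
      rw [e] at hdet h1
      ext a b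
      fin_cases a <;> fin_cases b <;>
        simp only [Matrix.mul_apply, Fin.sum_univ_two, Fin.zero_eta, Fin.isValue, Fin.mk_one,
          Matrix.zero_apply, e]
      · linear_combination (N 0 0) * h1 - (H 1 1) * hdet
      · linear_combination (N 0 1) * h1 + (H 0 1) * hdet
      · linear_combination (N 1 0) * h1 + (H 1 0) * hdet
      · linear_combination (-(N 0 0)) * h1 - (H 0 0) * hdet
    -- ker N = range N
    have hr : ∃ y, x = N *ᵥ y := by
      rw [Matrix.trace_fin_two] at htr
      rw [Matrix.det_fin_two] at hdet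
      have e : N 1 1 = - N 0 0 := by linear_combination htr
      rw [e] at hdet
      have hx0 := congrFun hx 0
      have hx1 := congrFun hx 1
      simp only [Matrix.mulVec, dotProduct, Fin.sum_univ_two, Pi.zero_apply, e] at hx0 hx1
      by_cases h01 : N 0 1 = 0
      · have h00 : N 0 0 = 0 := by
          rw [h01, zero_mul, sub_zero] at hdet
          have : N 0 0 * N 0 0 = 0 := by linear_combination -hdet
          exact mul_self_eq_zero.1 this
        have h10 : N 1 0 ≠ 0 := by
          intro h10
          refine hN0 ?_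
          ext a b
          fin_cases a <;> fin_cases b <;> simp [h01, h00, h10, e]
        have hx00 : x 0 = 0 := by
          rw [h00] at hx1
          have : N 1 0 * x 0 = 0 := by linear_combination hx1
          exact (mul_eq_zero.1 this).resolve_left h10
        refine ⟨![x 1 / N 1 0, 0], ?_⟩
        ext i
        fin_cases i
        · simp [Matrix.mulVec, dotProduct, Fin.sum_univ_two, h00, hx00]
        · simp [Matrix.mulVec, dotProduct, Fin.sum_univ_two]
          field_simp
      · refine ⟨![0, x 0 / N 0 1], ?_⟩
        have hx1' : x 1 = - (N 0 0) * (x 0 / N 0 1) := by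
          field_simp
          linear_combination hx0
        ext i
        fin_cases i
        · simp [Matrix.mulVec, dotProduct, Fin.sum_univ_two]
          field_simp
        · simp only [Matrix.mulVec, dotProduct, Fin.sum_univ_two, Fin.mk_one, Fin.isValue, e]
          simp [hx1']
    obtain ⟨y, rfl⟩ := hr
    rw [Matrix.mulVec_mulVec, Matrix.mulVec_mulVec, hNHN, Matrix.zero_mulVec]
  rcases hirr.2 W hinv with h1 | h1
  · -- N injective, but N N = 0
    refine hN0 ?_
    ext a b
    have h3 : N *ᵥ (Pi.single b 1) ∈ W := by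
      rw [hW, Matrix.mulVec_mulVec, hsq, Matrix.zero_mulVec]
    rw [h1, Submodule.mem_bot] at h3
    have h4 := congrFun h3 a
    rw [Matrix.mulVec_single_one] at h4
    exact h4
  · refine hN0 ?_
    ext a b
    have h3 : (Pi.single b 1 : Fin 2 → E) ∈ W := by rw [h1]; trivial
    rw [hW] at h3
    have h4 := congrFun h3 a
    rw [Matrix.mulVec_single_one] at h4
    exact h4

end Pool.Agent.H23.QT
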