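import Pool.Agent.H51.QT.Base
import Pool.Agent.H71.QT.Real
import Pool.Agent.H19.QT.Deg
import Pool.Agent.H89.IP.FrD

/-!
# QT.Rat : rationality over the completions of a number field

The representations over the algebraic closure of `ℚ_l` have models over the completions of the
number field generated by the eigenvalues and by the roots of two Frobenius polynomials.
-/

set_option autoImplicit false

open scoped Pointwise NumberField
open Matrix IsDedekindDomain Topology Pool.Agent.H71.Patch Pool.Agent.H89.IP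

namespace Pool.Agent.H23.QT

open Pool.Agent.H51.QT Pool.Agent.H19.QT

/-! ## primes -/

theorem exists_prime_mem {R : Type} [Field R] [NumberField R] (v : HeightOneSpectrum (𝓞 R)) :
    ∃ p : ℕ, p.Prime ∧ (p : 𝓞 R) ∈ v.asIdeal := by
  classical
  have hex : ∃ n : ℕ, 0 < n ∧ (n : 𝓞 R) ∈ v.asIdeal := by
    refine ⟨Ideal.absNorm v.asIdeal, ?_, Ideal.absNorm_mem _⟩
    rw [Nat.pos_iff_ne_zero]
    exact fun h => v.ne_bot (Ideal.absNorm_eq_zero_iff.1 h)
  have hspec := Nat.find_spec hex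
  set n := Nat.find hex with hn
  have hn1 : n ≠ 1 := by
    intro h
    have h2 := hspec.2
    rw [h, Nat.cast_one] at h2
    exact v.isPrime.ne_top ((Ideal.eq_top_iff_one _).2 h2)
  refine ⟨n, ?_, hspec.2⟩
  rw [Nat.prime_def]
  refine ⟨?_, ?_⟩
  · have := hspec.1
    omega
  · intro a ha
    obtain ⟨b, hb⟩ := ha
    have ha0 : 0 < a := Nat.pos_of_ne_zero (by rintro rfl; rw [zero_mul] at hb; omega)
    have hb0 : 0 < b := Nat.pos_of_ne_zero (by rintro rfl; rw [mul_zero] at hb; omega)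
    have h3 : (a : 𝓞 R) * (b : 𝓞 R) ∈ v.asIdeal := by
      rw [← Nat.cast_mul, ← hb]; exact hspec.2
    rcases v.isPrime.mem_or_mem h3 with h4 | h4
    · right
      have h5 : n ≤ a := Nat.find_min' hex ⟨ha0, h4⟩
      have h6 : a ≤ n := Nat.le_of_dvd hspec.1 ⟨b, hb⟩
      omega
    · left
      have h5 : n ≤ b := Nat.find_min' hex ⟨hb0, h4⟩
      have h6 : b ≤ n := Nat.le_of_dvd hspec.1 ⟨a, by rw [hb, mul_comm]⟩
      have h7 : b = n := by omega
      rw [h7] at hb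
      exact Nat.eq_of_mul_eq_mul_right hspec.1 (by rw [one_mul]; exact hb.symm)

theorem prime_unique {R : Type} [Field R] [NumberField R] {v : HeightOneSpectrum (𝓞 R)} {p q : ℕ}
    (hp : p.Prime) (hq : q.Prime) (h1 : (p : 𝓞 R) ∈ v.asIdeal) (h2 : (q : 𝓞 R) ∈ v.asIdeal) :
    p = q := by
  by_contra hne
  have hc : Nat.Coprime p q := (Nat.coprime_primes hp hq).2 hne
  obtain ⟨a, b, hab⟩ := Nat.isCoprime_iff_coprime.2 hc
  have h3 : ((a : ℤ) : 𝓞 R) * (p : 𝓞 R) + ((b : ℤ) : 𝓞 R) * (q : 𝓞 R) = 1 := by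
    have := congrArg (Int.cast : ℤ → 𝓞 R) hab
    push_cast at this
    exact this
  have h4 : (1 : 𝓞 R) ∈ v.asIdeal := by
    rw [← h3]
    exact Ideal.add_mem _ (Ideal.mul_mem_left _ _ h1) (Ideal.mul_mem_left _ _ h2)
  exact v.isPrime.ne_top ((Ideal.eq_top_iff_one _).2 h4)

/-! ## the completion -/

theorem comp_fin (E : IntermediateField ℚ Qb) [FiniteDimensional ℚ E] (l : ℕ) [Fact l.Prime]
    (j : E →+* PadicAlgCl l) : FiniteDimensional ℚ_[l] (Comp E l j) := by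
  classical
  let b := Module.finBasis ℚ E
  let S : Set (PadicAlgCl l) := Set.range fun i => j (b i)
  have hS : S.Finite := Set.finite_range _
  have : Finite S := hS
  have hfd : FiniteDimensional ℚ_[l] (IntermediateField.adjoin ℚ_[l] S) :=
    IntermediateField.finiteDimensional_adjoin fun x _ => Algebra.IsIntegral.isIntegral x
  have hle : Comp E l j ≤ IntermediateField.adjoin ℚ_[l] S := by
    rw [IntermediateField.adjoin_le_iff]
    rintro _ ⟨x, rfl⟩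
    rw [← b.sum_repr x, map_sum]
    refine sum_mem fun i _ => ?_
    rw [Algebra.smul_def, map_mul]
    refine mul_mem ?_ (IntermediateField.subset_adjoin _ _ ⟨i, rfl⟩)
    have h1 : j (algebraMap ℚ E ((b.repr x) i)) = algebraMap ℚ (PadicAlgCl l) ((b.repr x) i) := by
      have := RingHom.congr_fun (RingHom.ext_rat (j.comp (algebraMap ℚ E))
        (algebraMap ℚ (PadicAlgCl l))) ((b.repr x) i)
      exact this
    rw [h1, IsScalarTower.algebraMap_apply ℚ ℚ_[l] (PadicAlgCl l)]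
    exact (IntermediateField.adjoin ℚ_[l] S).algebraMap_mem _
  have h2 : FiniteDimensional ℚ_[l]
      (Subalgebra.toSubmodule (IntermediateField.adjoin ℚ_[l] S).toSubalgebra) := hfd
  exact Submodule.finiteDimensional_of_le (S₁ := Subalgebra.toSubmodule (Comp E l j).toSubalgebra)
    (S₂ := Subalgebra.toSubmodule (IntermediateField.adjoin ℚ_[l] S).toSubalgebra) hle

theorem comp_closed (E : IntermediateField ℚ Qb) [FiniteDimensional ℚ E] (l : ℕ) [Fact l.Prime]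
    (j : E →+* PadicAlgCl l) :
    IsClosedEmbedding (algebraMap (Comp E l j) (PadicAlgCl l)) := by
  have hfd := comp_fin E l j
  have h1 : IsClosed ((Comp E l j : IntermediateField ℚ_[l] (PadicAlgCl l)) :
      Set (PadicAlgCl l)) := by
    have h2 : FiniteDimensional ℚ_[l]
        (Subalgebra.toSubmodule (Comp E l j).toSubalgebra) := hfd
    exact Submodule.closed_of_finiteDimensional
      (Subalgebra.toSubmodule (Comp E l j).toSubalgebra)
  exact h1.isClosedEmbedding_subtypeVal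

theorem exists_ext (E : IntermediateField ℚ Qb) (l : ℕ) [Fact l.Prime]
    (j : E →+* PadicAlgCl l) : ∃ j' : Qb →+* PadicAlgCl l, ∀ x : E, j' x = j x := by
  let _ := j.toAlgebra
  have : Algebra.IsAlgebraic ℚ Qb := algebraicClosure.isAlgebraic ℚ ℂ
  have : Algebra.IsAlgebraic E Qb := Algebra.IsAlgebraic.tower_top (K := ℚ) E
  let f : Qb →ₐ[E] PadicAlgCl l := IsAlgClosed.lift
  exact ⟨f.toRingHom, fun x => f.commutes x⟩

/-! ## traces of powers -/

theorem pow_mem {L : Type*} [Field L] (S : Subfield L) (M : Matrix (Fin 2) (Fin 2) L)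
    (ht : M.trace ∈ S) (hd : M.det ∈ S) (n : ℕ) :
    ∃ x ∈ S, ∃ y ∈ S, M ^ n = x • M + y • (1 : Matrix (Fin 2) (Fin 2) L) := by
  induction n with
  | zero => exact ⟨0, zero_mem _, 1, one_mem _, by simp⟩
  | succ n ih =>
    obtain ⟨x, hx, y, hy, h⟩ := ih
    refine ⟨x * M.trace + y, add_mem (mul_mem hx ht) hy, -(x * M.det), neg_mem (mul_mem hx hd), ?_⟩
    rw [pow_succ, h]
    ext a b
    fin_cases a <;> fin_cases b <;>
      simp [Matrix.mul_apply, Fin.sum_univ_two, Matrix.trace_fin_two, Matrix.det_fin_two,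
        Matrix.add_apply, Matrix.smul_apply] <;> ring

theorem trace_pow_mem {L : Type*} [Field L] (S : Subfield L) (M : Matrix (Fin 2) (Fin 2) L)
    (ht : M.trace ∈ S) (hd : M.det ∈ S) (n : ℕ) : (M ^ n).trace ∈ S := by
  obtain ⟨x, hx, y, hy, h⟩ := pow_mem S M ht hd n
  rw [h, Matrix.trace_add, Matrix.trace_smul, Matrix.trace_smul, Matrix.trace_one]
  refine add_mem (mul_mem hx ht) (mul_mem hy ?_)
  exact natCast_mem S _

variable {F : Type} [Field F] [NumberField F] {K : IntermediateField F (AlgebraicClosure F)}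

theorem acts_powN {Q : Ideal (Zbar F)} (hQ : Q.IsPrime) {n : ℕ} {g : GalK F} (h : Acts Q g n)
    (m : ℕ) : Acts Q (g ^ m) (n ^ m) := by
  induction m with
  | zero =>
    intro x
    simp
  | succ m ih =>
    rw [pow_succ, pow_succ]
    exact acts_mul hQ ih h

/-- the value at an element which acts as a power of the Frobenius -/
theorem val_pow (𝒦 : Known K) [FiniteDimensional F K] (θ : 𝒦.Eig) {l : ℕ} [Fact l.Prime]
    (j : Qb →+* PadicAlgCl l) (σ : K.fixingSubgroup →* GL (Fin 2) (PadicAlgCl l))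
    (hσ : Good 𝒦 θ j σ) {v : HeightOneSpectrum (𝓞 K)} {Q : Ideal (Zbar F)} (hv : Over K v Q)
    (hlev : ¬ 𝒦.lev θ ≤ v.asIdeal) (hl : (l : 𝓞 K) ∉ v.asIdeal) (g : K.fixingSubgroup) (m : ℕ)
    (h : Acts Q g (nm v ^ m)) :
    ∃ φ : K.fixingSubgroup, Acts Q φ (nm v) ∧ (σ g).val = (σ φ).val ^ m := by
  obtain ⟨φ, hφK, hφ⟩ := exists_frob hv
  refine ⟨⟨φ, hφK⟩, hφ, ?_⟩
  have h1 : Acts Q (φ ^ m) (nm v ^ m) := acts_powN hv.1 hφ m
  have h2 : Acts Q ((φ ^ m)⁻¹ * (g : GalK F)) 1 := acts_inv_mul hv.1 h1 h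
  have h3 := (hσ v Q hv hlev hl).1 (((⟨φ, hφK⟩ : K.fixingSubgroup) ^ m)⁻¹ * g) (by simpa using h2)
  rw [map_mul, map_inv, map_pow, inv_mul_eq_one] at h3
  rw [← h3, Units.val_pow_eq_pow_val]

/-- the elements of the Galois group of `K` which are powers of Frobenius elements of `F` -/
theorem dense_frobPow [FiniteDimensional F K] {S : Set (HeightOneSpectrum (𝓞 F))}
    (hS : S.Finite) : Dense {g : K.fixingSubgroup | (g : GalK F) ∈ FrobPow F S} := by
  have h1 : IsOpen (K.fixingSubgroup : Set (GalK F)) := K.fixingSubgroup_isOpen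
  exact (frobPow_dense F hS).preimage h1.isOpenMap_subtype_val

theorem trace_mem (𝒦 : Known K) [FiniteDimensional F K] (θ : 𝒦.Eig) {l : ℕ} [Fact l.Prime]
    (j : Qb →+* PadicAlgCl l) (σ : K.fixingSubgroup →* GL (Fin 2) (PadicAlgCl l))
    (hσ : Good 𝒦 θ j σ) (S : Subfield (PadicAlgCl l))
    (hS : ∀ v, ¬ 𝒦.lev θ ≤ v.asIdeal → j (𝒦.T θ v) ∈ S ∧ j (𝒦.S θ v) ∈ S) :
    ∃ D : Set K.fixingSubgroup, Dense D ∧ ∀ g ∈ D, (σ g).val.trace ∈ S := by
  let B : Set (HeightOneSpectrum (𝓞 F)) :=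
    {u | ∃ v Q, Above u Q ∧ Over K v Q ∧ 𝒦.lev θ ≤ v.asIdeal} ∪ {u | (l : 𝓞 F) ∈ u.asIdeal}
  have hB : B.Finite := (finite_bad (𝒦.lev θ) (𝒦.lev_ne θ)).union
    (finite_l l (Nat.Prime.ne_zero Fact.out))
  refine ⟨{g | (g : GalK F) ∈ FrobPow F B}, dense_frobPow hB, ?_⟩
  rintro g ⟨u, hu, Q, huQ, φ, hφ, i, hi, hg⟩
  obtain ⟨v, hv⟩ := over_exists K huQ
  have hlev : ¬ 𝒦.lev θ ≤ v.asIdeal := fun h => hu (Or.inl ⟨v, Q, huQ, hv, h⟩)
  have hl : (l : 𝓞 K) ∉ v.asIdeal := fun h => hu (Or.inr ((mem_iff huQ hv l).2 h))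
  have h1 : Acts Q φ (nm u) := (acts_frob huQ).1 hφ
  have h2 : Acts Q (g : GalK F) (nm u ^ i) := by
    rw [hg]; exact acts_powN hv.1 h1 i
  obtain ⟨m, hm⟩ := acts_pow huQ hv g g.2 i h2
  rw [hm] at h2
  obtain ⟨ψ, hψ, he⟩ := val_pow 𝒦 θ j σ hσ hv hlev hl g m h2
  rw [he]
  have h3 := (hσ v Q hv hlev hl).2 ψ hψ
  refine trace_pow_mem S _ ?_ ?_ m
  · rw [h3.1]; exact (hS v hlev).1
  · rw [h3.2, map_mul, map_natCast]
    exact mul_mem (hS v hlev).2 (natCast_mem S _)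

theorem rat (𝒦 : Known K) (θ : 𝒦.Eig)
    (h : ∀ (l : ℕ) [Fact l.Prime] (j : Qb →+* PadicAlgCl l),
      ∃ σ : K.fixingSubgroup →* GL (Fin 2) (PadicAlgCl l), Continuous σ ∧ Good 𝒦 θ j σ ∧
        Irred σ)
    (hd : ∀ p : ℕ, p.Prime → ∃ v : HeightOneSpectrum (𝓞 K), ¬ 𝒦.lev θ ≤ v.asIdeal ∧
      (p : 𝓞 K) ∉ v.asIdeal ∧ 𝒦.T θ v ^ 2 ≠ 4 * (𝒦.S θ v * (nm v : Qb))) :
    ∃ E : IntermediateField ℚ Qb, FiniteDimensional ℚ E ∧
    ∃ hE : ∀ v, ¬ 𝒦.lev θ ≤ v.asIdeal → 𝒦.T θ v ∈ E ∧ 𝒦.S θ v ∈ E,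
    ∀ (l : ℕ) [Fact l.Prime] (j : E →+* PadicAlgCl l),
      ∃ ρ : K.fixingSubgroup →* GL (Fin 2) (Comp E l j), Continuous ρ ∧ Irred ρ ∧
        ∀ (v : HeightOneSpectrum (𝓞 K)) (hv : ¬ 𝒦.lev θ ≤ v.asIdeal), (l : 𝓞 K) ∉ v.asIdeal →
          ∀ Q, Over K v Q →
            (∀ g : K.fixingSubgroup, Acts Q g 1 → ρ g = 1) ∧
            ∀ g : K.fixingSubgroup, Acts Q g (nm v) → (ρ g).val.charpoly =
              Polynomial.X ^ 2 - Polynomial.C (toComp E l j ⟨𝒦.T θ v, (hE v hv).1⟩) *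
                Polynomial.X + Polynomial.C (toComp E l j ⟨𝒦.S θ v, (hE v hv).2⟩ *
                  (nm v : Comp E l j)) := by
  classical
  have hfdK : FiniteDimensional F K := by
    refine Module.finite_of_finrank_pos ?_
    rw [𝒦.deg]; norm_num
  have hNF : NumberField K := numberField_of K
  obtain ⟨E₀, hE₀, hTS⟩ := 𝒦.coef θ
  obtain ⟨v₁, hlev₁, -, hne₁⟩ := hd 2 Nat.prime_two
  obtain ⟨p, hp, hpv⟩ := exists_prime_mem (R := K) v₁
  obtain ⟨v₂, hlev₂, hpv₂, hne₂⟩ := hd p hp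
  obtain ⟨x₁, y₁, -, -, hs₁, hm₁, -, -⟩ := 𝒦.tr_good θ v₁ hlev₁
  obtain ⟨x₂, y₂, -, -, hs₂, hm₂, -, -⟩ := 𝒦.tr_good θ v₂ hlev₂
  have hxy₁ : x₁ ≠ y₁ := by
    intro he
    apply hne₁
    rw [← hs₁, ← hm₁, he]; ring
  have hxy₂ : x₂ ≠ y₂ := by
    intro he
    apply hne₂
    rw [← hs₂, ← hm₂, he]; ring
  let X : Set Qb := {x₁, y₁, x₂, y₂}
  have hX : X.Finite := Set.toFinite _
  have : Finite X := hX
  have : Algebra.IsAlgebraic ℚ Qb := algebraicClosure.isAlgebraic ℚ ℂ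
  have hfdX : FiniteDimensional ℚ (IntermediateField.adjoin ℚ X) :=
    IntermediateField.finiteDimensional_adjoin fun x _ => Algebra.IsIntegral.isIntegral x
  let E : IntermediateField ℚ Qb := E₀ ⊔ IntermediateField.adjoin ℚ X
  have hfdE : FiniteDimensional ℚ E := IntermediateField.finiteDimensional_sup _ _
  have hXE : ∀ x ∈ X, x ∈ E := fun x hx =>
    (le_sup_right : IntermediateField.adjoin ℚ X ≤ E) (IntermediateField.subset_adjoin _ _ hx)
  have hE : ∀ v, ¬ 𝒦.lev θ ≤ v.asIdeal → 𝒦.T θ v ∈ E ∧ 𝒦.S θ v ∈ E := fun v hv =>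
    ⟨(le_sup_left : E₀ ≤ E) (hTS v hv).1, (le_sup_left : E₀ ≤ E) (hTS v hv).2⟩
  refine ⟨E, hfdE, hE, ?_⟩
  intro l hlp j
  obtain ⟨j', hj'⟩ := exists_ext E l j
  obtain ⟨σ, hc, hgood, hirr⟩ := h l j'
  -- a place with distinct roots prime to `l`
  have hpl : ∃ v : HeightOneSpectrum (𝓞 K), ∃ x y : Qb, ¬ 𝒦.lev θ ≤ v.asIdeal ∧
      (l : 𝓞 K) ∉ v.asIdeal ∧ x ∈ E ∧ y ∈ E ∧ x ≠ y ∧ x + y = 𝒦.T θ v ∧
      x * y = 𝒦.S θ v * (nm v : Qb) := by
    by_cases hl : (l : 𝓞 K) ∈ v₁.asIdeal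
    · have hlp' : p = l := prime_unique (R := K) hp Fact.out hpv hl
      refine ⟨v₂, x₂, y₂, hlev₂, ?_, hXE _ (by simp [X]), hXE _ (by simp [X]), hxy₂, hs₂, hm₂⟩
      rw [← hlp']; exact hpv₂
    · exact ⟨v₁, x₁, y₁, hlev₁, hl, hXE _ (by simp [X]), hXE _ (by simp [X]), hxy₁, hs₁, hm₁⟩
  obtain ⟨v, x, y, hlev, hl, hxE, hyE, hxy, hs, hm⟩ := hpl
  obtain ⟨Q, hQ⟩ := exists_over (F := F) v
  obtain ⟨φ, hφK, hφ⟩ := exists_frob hQ
  set ι : Comp E l j →+* PadicAlgCl l := algebraMap (Comp E l j) (PadicAlgCl l) with hι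
  have hιj : ∀ z : E, ι (toComp E l j z) = j' z := fun z => (hj' z).symm
  have hcl : IsClosedEmbedding ι := comp_closed E l j
  obtain ⟨D, hD, hDtr⟩ := trace_mem 𝒦 θ j' σ hgood ι.fieldRange (fun w hw =>
    ⟨⟨toComp E l j ⟨_, (hE w hw).1⟩, hιj _⟩, ⟨toComp E l j ⟨_, (hE w hw).2⟩, hιj _⟩⟩)
  have hφσ := (hgood v Q hQ hlev hl).2 ⟨φ, hφK⟩ hφ
  have hch : (σ ⟨φ, hφK⟩).val.charpoly =
      (Polynomial.X - Polynomial.C (ι (toComp E l j ⟨x, hxE⟩))) *
        (Polynomial.X - Polynomial.C (ι (toComp E l j ⟨y, hyE⟩))) := by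
    rw [Matrix.charpoly_fin_two, hφσ.1, hφσ.2, hιj, hιj, ← hs, ← hm, map_add, map_mul,
      Polynomial.C_add, Polynomial.C_mul]
    ring
  have hab : toComp E l j ⟨x, hxE⟩ ≠ toComp E l j ⟨y, hyE⟩ := by
    intro he
    have h1 := congrArg ι he
    rw [hιj, hιj] at h1
    exact hxy (j'.injective h1)
  obtain ⟨ρ, T, hρc, hρ⟩ := Pool.Agent.H71.QT.exists_model ι hcl σ hc hirr D hD
    (fun g hg => hDtr g hg) ⟨φ, hφK⟩ _ _ hab hch
  refine ⟨ρ, hρc, Pool.Agent.H71.QT.irred_of_map ι σ hirr ρ T hρ, ?_⟩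
  intro w hw hlw Q' hQ'
  have hgw := hgood w Q' hQ' hw hlw
  constructor
  · intro g hg
    have h1 := hgw.1 g hg
    have h2 := hρ g
    rw [h1, mul_one, mul_inv_cancel, Units.val_one] at h2
    apply Units.ext
    refine Matrix.map_injective ι.injective ?_
    show (ρ g).val.map ι = (1 : Matrix (Fin 2) (Fin 2) (Comp E l j)).map ι
    rw [h2, Matrix.map_one _ (map_zero ι) (map_one ι)]
  · intro g hg
    have h1 := Pool.Agent.H71.QT.charpoly_of_map ι σ ρ T hρ g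
    have h2 := hgw.2 g hg
    refine Polynomial.map_injective ι ι.injective ?_
    rw [h1, Matrix.charpoly_fin_two, h2.1, h2.2]
    simp only [Polynomial.map_add, Polynomial.map_sub, Polynomial.map_mul, Polynomial.map_pow,
      Polynomial.map_X, Polynomial.map_C, map_mul, map_natCast, Polynomial.map_natCast, hιj]

end Pool.Agent.H23.QT
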